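import Pool.Agent.H79.LBL.Defs
import Pool.Agent.H79.LBL.Proof

/-!
# Every subsequential weak limit of stationary distance profiles is the profile of a Markov process

For every sequence of finite-state irreducible continuous-time Markov chains (in particular for
those normalised to have median mixing time one), every subsequential weak limit of the random
functions `F_n(t) = d_X(t)`, `X ∼ π_n`, is distributed as the random function `(1)` of a
continuous-time Markov process on a measurable space with a stationary distribution.

Proof idea: take the product of the state spaces over the index set `ℕ × Finset ℝ≥0` modulo an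
ultrafilter, with the Loeb transition kernels, Loeb stationary measure and Loeb path measures.
Total variation distances of Loeb measures are the ultralimits of the total variation distances,
for every state and every time.
-/

open MeasureTheory Filter Topology
open scoped NNReal
open Pool.LBL

namespace Pool.Agent.Results.MP_5090e2_pr.LoebLimit

/-- Let `(P n, π n)` be finite-state irreducible continuous-time Markov chains on `V n` with
stationary distributions `π n`, and let `F n x = d_x` for the `n`-th chain. Let the probability law
`μ` on `𝓜` be a subsequential weak limit of the laws of `F n (X)`, `X ∼ π n`. Then `μ` is the law of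
the random function (1) of a continuous-time Markov process on a measurable space `S` with a
stationary distribution. -/
theorem result (V : ℕ → Type) [∀ n, MeasurableSpace (V n)]
    (P : ∀ n, ℝ≥0 → V n → Measure (V n)) (π : ∀ n, Measure (V n)) (F : ∀ n, V n → Prof)
    (hP : ∀ n, IsChain (P n) (π n)) (hF : ∀ n, IsProfile (P n) (π n) (F n))
    (φ : ℕ → ℕ) (hφ : StrictMono φ) (μ : Measure Prof) (hμ : IsProbabilityMeasure μ)
    (hlim : ∀ Φ : Prof → ℝ, IsTest Φ →
      Tendsto (fun n => ∫ x, Φ (F (φ n) x) ∂(π (φ n))) atTop (𝓝 (∫ f, Φ f ∂μ))) :
    ∃ (S Ω : Type) (_ : MeasurableSpace S) (_ : MeasurableSpace Ω), Realises S Ω μ :=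
  main V P π F hP hF φ hφ μ hμ hlim

end Pool.Agent.Results.MP_5090e2_pr.LoebLimit
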